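import Mathlib

/-!
The functions `g(t) |y|² + e(t)` of the variables `(t, y)`: derivatives and Laplacian; the elementary
inequality behind the comparison condition for `u = t |y|² + ε t^a`,
`v = (t + t²) |y|² / 2 + ε' t^b`.
-/

set_option autoImplicit false

namespace Pool.Agent.H823.Hopf

open Set

/-- The space `ℝ^m` of the variable `y`. -/
abbrev Y (m : ℕ) : Type := EuclideanSpace ℝ (Fin m)

/-- The derivative in the variable `t`. -/
noncomputable def dt {m : ℕ} (w : ℝ × Y m → ℝ) (p : ℝ × Y m) : ℝ :=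
  deriv (fun s : ℝ => w (s, p.2)) p.1

/-- The derivative in the variable `y_j`. -/
noncomputable def dy {m : ℕ} (j : Fin m) (w : ℝ × Y m → ℝ) (p : ℝ × Y m) : ℝ :=
  deriv (fun s : ℝ => w (p.1, p.2 + s • EuclideanSpace.single j (1 : ℝ))) 0

/-- The Laplacian in all variables `(t, y)`. -/
noncomputable def lap {m : ℕ} (w : ℝ × Y m → ℝ) (p : ℝ × Y m) : ℝ :=
  dt (dt w) p + ∑ j, dy j (dy j w) p

/-- The model function `g(t) |y|² + e(t)`. -/
noncomputable def mg {m : ℕ} (g e : ℝ → ℝ) (p : ℝ × Y m) : ℝ :=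
  g p.1 * ‖p.2‖ ^ 2 + e p.1

variable {m : ℕ}

lemma mg_contDiff {g e : ℝ → ℝ} (hg : ContDiff ℝ (⊤ : ℕ∞) g) (he : ContDiff ℝ (⊤ : ℕ∞) e) :
    ContDiff ℝ (⊤ : ℕ∞) (mg (m := m) g e) := by
  have h2 : ContDiff ℝ (⊤ : ℕ∞) (fun p : ℝ × Y m => ‖p.2‖ ^ 2) := contDiff_snd.norm_sq ℝ
  exact ((hg.comp contDiff_fst).mul h2).add (he.comp contDiff_fst)

lemma dt_mg {g g' e e' : ℝ → ℝ} (hg : ∀ t, HasDerivAt g (g' t) t)
    (he : ∀ t, HasDerivAt e (e' t) t) :
    dt (mg (m := m) g e) = mg g' e' := by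
  funext p
  have h : HasDerivAt (fun s : ℝ => g s * ‖p.2‖ ^ 2 + e s) (g' p.1 * ‖p.2‖ ^ 2 + e' p.1) p.1 :=
    ((hg p.1).mul_const (‖p.2‖ ^ 2)).add (he p.1)
  exact h.deriv

lemma norm_line (y : Y m) (j : Fin m) (s : ℝ) :
    ‖y + s • EuclideanSpace.single j (1 : ℝ)‖ ^ 2 = ‖y‖ ^ 2 + 2 * y j * s + s ^ 2 := by
  rw [norm_add_sq_real, inner_smul_right, EuclideanSpace.inner_single_right, norm_smul]
  simp
  ring

lemma hasDerivAt_sq_line (y : Y m) (j : Fin m) (s : ℝ) :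
    HasDerivAt (fun s : ℝ => ‖y + s • EuclideanSpace.single j (1 : ℝ)‖ ^ 2) (2 * y j + 2 * s) s := by
  simp_rw [norm_line]
  have h := (((hasDerivAt_id s).const_mul (2 * y j)).const_add (‖y‖ ^ 2)).add
    ((hasDerivAt_id s).pow 2)
  refine h.congr_deriv ?_
  simp

lemma dy_mg (g e : ℝ → ℝ) (j : Fin m) :
    dy j (mg (m := m) g e) = fun p => g p.1 * (2 * p.2 j) := by
  funext p
  have h1 := hasDerivAt_sq_line p.2 j 0
  have h3 := (h1.const_mul (g p.1)).add_const (e p.1)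
  have h4 : HasDerivAt (fun s : ℝ => mg g e (p.1, p.2 + s • EuclideanSpace.single j (1 : ℝ)))
      (g p.1 * (2 * p.2 j + 2 * 0)) 0 := h3
  rw [dy, h4.deriv]
  ring

lemma dy_dy_mg (g e : ℝ → ℝ) (j : Fin m) (p : ℝ × Y m) :
    dy j (dy j (mg (m := m) g e)) p = g p.1 * 2 := by
  rw [dy_mg g e j]
  have h2 : HasDerivAt (fun s : ℝ => (p.2 + s • EuclideanSpace.single j (1 : ℝ)) j) 1 0 := by
    have : (fun s : ℝ => (p.2 + s • EuclideanSpace.single j (1 : ℝ)) j) = fun s => p.2 j + s := by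
      funext s; simp
    rw [this]
    exact (hasDerivAt_id 0).const_add _
  have h3 := ((h2.const_mul 2).const_mul (g p.1))
  rw [dy]
  refine HasDerivAt.deriv (h3.congr_deriv ?_)
  ring

lemma lap_mg {g g' g'' e e' e'' : ℝ → ℝ} (hg : ∀ t, HasDerivAt g (g' t) t)
    (hg' : ∀ t, HasDerivAt g' (g'' t) t) (he : ∀ t, HasDerivAt e (e' t) t)
    (he' : ∀ t, HasDerivAt e' (e'' t) t) (p : ℝ × Y m) :
    lap (mg (m := m) g e) p = g'' p.1 * ‖p.2‖ ^ 2 + e'' p.1 + 2 * m * g p.1 := by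
  rw [lap, dt_mg hg he, dt_mg hg' he']
  simp_rw [dy_dy_mg g e]
  rw [Finset.sum_const, Finset.card_univ, Fintype.card_fin, nsmul_eq_mul]
  simp only [mg]
  ring

/-- The elementary inequality behind the comparison condition. -/
lemma key_ineq {a b : ℕ} (ha : 4 ≤ a) (hab : a ≤ b) {M t s X ε ε' : ℝ} (hM : 1 ≤ M) (ht : 0 < t)
    (hts : t ≤ s) (hs : s < 1) (hX : 0 ≤ X) (hε : 0 < ε) (hεa : ε * a ^ 4 ≤ 1)
    (hε' : 0 < ε') (hε'' : ε' * 4 ^ a ≤ ε / 2)
    (heq : t * X + ε * t ^ a = (s / 2 + s ^ 2 / 2) * X + ε' * s ^ b) :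
    ε * (a * (a - 1) * t ^ (a - 2)) + 2 * M * t ≤
      X + ε' * (b * (b - 1) * s ^ (b - 2)) + 2 * M * (s / 2 + s ^ 2 / 2) := by
  have hs0 : 0 < s := lt_of_lt_of_le ht hts
  have ht1 : t < 1 := lt_of_le_of_lt hts hs
  have ha4 : (4 : ℝ) ≤ a := by exact_mod_cast ha
  have hb4 : (4 : ℝ) ≤ b := by exact_mod_cast ha.trans hab
  have hV : 0 ≤ ε' * (b * (b - 1) * s ^ (b - 2)) := by
    have : (0 : ℝ) ≤ b - 1 := by linarith
    positivity
  set E := ε * (a * (a - 1) * t ^ (a - 2)) with hE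
  have hE0 : 0 ≤ E := by
    have : (0 : ℝ) ≤ a - 1 := by linarith
    positivity
  have hEa : ε * (a * (a - 1)) ≤ 1 := by
    have h1 : (a : ℝ) * (a - 1) ≤ a ^ 4 := by
      have : (a : ℝ) * (a - 1) ≤ a ^ 2 := by nlinarith
      have h2 : (a : ℝ) ^ 2 ≤ a ^ 4 := pow_le_pow_right₀ (by linarith) (by norm_num)
      linarith
    calc ε * (a * (a - 1)) ≤ ε * a ^ 4 := by
          exact mul_le_mul_of_nonneg_left h1 hε.le
      _ ≤ 1 := hεa
  have hEt : E ≤ t := by
    have h2 : t ^ (a - 2) ≤ t ^ 1 := pow_le_pow_of_le_one ht.le ht1.le (by omega)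
    rw [pow_one] at h2
    have h3 : 0 ≤ ε * (a * (a - 1)) := by
      have : (0 : ℝ) ≤ a - 1 := by linarith
      positivity
    calc E = ε * (a * (a - 1)) * t ^ (a - 2) := by rw [hE]; ring
      _ ≤ ε * (a * (a - 1)) * t := mul_le_mul_of_nonneg_left h2 h3
      _ ≤ 1 * t := mul_le_mul_of_nonneg_right hEa ht.le
      _ = t := one_mul t
  by_cases hc : t ≤ s / 4
  · have h1 : 0 ≤ M * s ^ 2 := by positivity
    nlinarith
  · push Not at hc
    have h4t : s < 4 * t := by linarith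
    have h5 : ε' * s ^ b ≤ ε / 2 * t ^ a := by
      calc ε' * s ^ b ≤ ε' * s ^ a :=
            mul_le_mul_of_nonneg_left (pow_le_pow_of_le_one hs0.le hs.le hab) hε'.le
        _ ≤ ε' * (4 * t) ^ a :=
            mul_le_mul_of_nonneg_left (pow_le_pow_left₀ hs0.le h4t.le a) hε'.le
        _ = ε' * 4 ^ a * t ^ a := by rw [mul_pow]; ring
        _ ≤ ε / 2 * t ^ a := mul_le_mul_of_nonneg_right hε'' (by positivity)
    set F := s / 2 + s ^ 2 / 2 - t with hF
    have hFX : ε / 2 * t ^ a ≤ F * X := by rw [hF]; linarith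
    have hta : 0 < ε / 2 * t ^ a := by positivity
    have hF0 : 0 < F := by
      by_contra hcon
      push Not at hcon
      have : F * X ≤ 0 := mul_nonpos_of_nonpos_of_nonneg hcon hX
      linarith
    have hE2 : E ^ 2 ≤ ε * t ^ a := by
      have h6 : t ^ (a - 2) * t ^ (a - 2) ≤ t ^ a := by
        rw [← pow_add]
        exact pow_le_pow_of_le_one ht.le ht1.le (by omega)
      have h7 : (a * (a - 1 : ℝ)) ^ 2 ≤ a ^ 4 := by
        have h8 : (0 : ℝ) ≤ a * (a - 1) := by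
          have : (0 : ℝ) ≤ a - 1 := by linarith
          positivity
        have h9 : (a : ℝ) * (a - 1) ≤ a ^ 2 := by nlinarith
        calc (a * (a - 1 : ℝ)) ^ 2 ≤ ((a : ℝ) ^ 2) ^ 2 := pow_le_pow_left₀ h8 h9 2
          _ = a ^ 4 := by ring
      calc E ^ 2 = ε * (ε * (a * (a - 1 : ℝ)) ^ 2) * (t ^ (a - 2) * t ^ (a - 2)) := by
            rw [hE]; ring
        _ ≤ ε * (ε * a ^ 4) * t ^ a := by
            apply mul_le_mul _ h6 (by positivity) (by positivity)
            exact mul_le_mul_of_nonneg_left (mul_le_mul_of_nonneg_left h7 hε.le) hε.le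
        _ ≤ ε * 1 * t ^ a := by
            apply mul_le_mul_of_nonneg_right _ (by positivity)
            exact mul_le_mul_of_nonneg_left hεa hε.le
        _ = ε * t ^ a := by ring
    have hR : E ≤ X + 2 * M * F := by
      have h10 : E ^ 2 ≤ (X + 2 * M * F) ^ 2 := by
        have h11 : 0 < F * X := by linarith
        calc E ^ 2 ≤ ε * t ^ a := hE2
          _ ≤ 2 * (F * X) := by linarith
          _ ≤ 8 * M * (F * X) := by nlinarith
          _ = 4 * X * (2 * M * F) := by ring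
          _ ≤ (X + 2 * M * F) ^ 2 := by nlinarith [sq_nonneg (X - 2 * M * F)]
      exact (abs_le_of_sq_le_sq' h10 (by positivity)).2
    have : 2 * M * (s / 2 + s ^ 2 / 2) = 2 * M * F + 2 * M * t := by rw [hF]; ring
    linarith

/-- The order of vanishing of `c t^k`. -/
lemma order_pow {c : ℝ} (hc : c ≠ 0) (k : ℕ) :
    (∀ j < k, iteratedDeriv j (fun t : ℝ => c * t ^ k) 0 = 0) ∧
      iteratedDeriv k (fun t : ℝ => c * t ^ k) 0 ≠ 0 := by
  constructor
  · intro j hj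
    rw [iteratedDeriv_const_mul_field, iteratedDeriv_eq_iterate, iter_deriv_pow,
      zero_pow (by omega)]
    simp
  · rw [iteratedDeriv_const_mul_field, iteratedDeriv_eq_iterate, iter_deriv_pow]
    refine mul_ne_zero hc (mul_ne_zero ?_ (by simp))
    refine Finset.prod_ne_zero_iff.mpr fun i hi => ?_
    have : i < k := Finset.mem_range.mp hi
    have : (i : ℝ) < k := by exact_mod_cast this
    exact sub_ne_zero.mpr this.ne'

/-- The derivatives of `c t^k`. -/
lemma hasDeriv_pow_one (c : ℝ) (k : ℕ) (t : ℝ) :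
    HasDerivAt (fun t : ℝ => c * t ^ k) (c * (k * t ^ (k - 1))) t :=
  (hasDerivAt_pow k t).const_mul c

lemma hasDeriv_pow_two (c : ℝ) {k : ℕ} (hk : 1 ≤ k) (t : ℝ) :
    HasDerivAt (fun t : ℝ => c * (k * t ^ (k - 1))) (c * (k * (k - 1) * t ^ (k - 2))) t := by
  refine (((hasDerivAt_pow (k - 1) t).const_mul (k : ℝ)).const_mul c).congr_deriv ?_
  rw [show k - 1 - 1 = k - 2 by omega, Nat.cast_sub hk]
  push_cast
  ring

open Filter Topology in
/-- The leading coefficient of a function of order at least `k`. -/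
lemma tendsto_div_pow {f : ℝ → ℝ} (hf : ContDiff ℝ (⊤ : ℕ∞) f) {k : ℕ}
    (h : ∀ j < k, iteratedDeriv j f 0 = 0) :
    Tendsto (fun t => f t / t ^ k) (𝓝[>] 0) (𝓝 (iteratedDeriv k f 0 / (k.factorial : ℝ))) := by
  have hk : ContDiffOn ℝ k f univ := (hf.of_le (by exact_mod_cast le_top)).contDiffOn
  have h1 := Real.taylor_tendsto convex_univ (mem_univ (0 : ℝ)) hk
  rw [nhdsWithin_univ] at h1
  have h2 : ∀ t, taylorWithinEval f k univ 0 t =
      ((k.factorial : ℝ))⁻¹ * t ^ k * iteratedDeriv k f 0 := by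
    intro t
    rw [taylor_within_apply, Finset.sum_range_succ, Finset.sum_eq_zero]
    · simp [iteratedDerivWithin_univ]
    · intro j hj
      rw [iteratedDerivWithin_univ, h j (Finset.mem_range.mp hj)]
      simp
  have h3 : Tendsto (fun t => (f t - taylorWithinEval f k univ 0 t) / (t - 0) ^ k +
      iteratedDeriv k f 0 / (k.factorial : ℝ)) (𝓝[>] 0)
      (𝓝 (0 + iteratedDeriv k f 0 / (k.factorial : ℝ))) :=
    (h1.mono_left nhdsWithin_le_nhds).add_const _
  rw [zero_add] at h3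
  refine h3.congr' ?_
  filter_upwards [self_mem_nhdsWithin] with t ht
  have ht0 : (t : ℝ) ≠ 0 := (ne_of_gt ht)
  rw [h2, sub_zero]
  have : (k.factorial : ℝ) ≠ 0 := by positivity
  field_simp
  ring

open Filter Topology in
/-- If `0 < g ≤ f` on `(0, 1)` then the order of `f` at `0` is at most the order of `g`. -/
lemma order_le {f g : ℝ → ℝ} (hf : ContDiff ℝ (⊤ : ℕ∞) f) (hg : ContDiff ℝ (⊤ : ℕ∞) g) {a b : ℕ}
    (h : ∀ t, 0 < t → t < 1 → 0 < g t ∧ g t ≤ f t)
    (ha : ∀ j < a, iteratedDeriv j f 0 = 0) (hb : ∀ j < b, iteratedDeriv j g 0 = 0)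
    (hb' : iteratedDeriv b g 0 ≠ 0) : a ≤ b := by
  by_contra hcon
  push Not at hcon
  have hF := tendsto_div_pow hf (k := b) fun j hj => ha j (hj.trans hcon)
  have hG := tendsto_div_pow hg (k := b) hb
  have hev : ∀ᶠ t : ℝ in 𝓝[>] 0, t ∈ Ioo (0 : ℝ) 1 := Ioo_mem_nhdsGT (by norm_num)
  have h1 : 0 ≤ iteratedDeriv b g 0 / (b.factorial : ℝ) := by
    refine ge_of_tendsto hG ?_
    filter_upwards [hev] with t ht
    have := (h t ht.1 ht.2).1
    have h0 := ht.1
    positivity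
  have h2 : iteratedDeriv b g 0 / (b.factorial : ℝ) ≤ iteratedDeriv b f 0 / (b.factorial : ℝ) := by
    refine le_of_tendsto_of_tendsto hG hF ?_
    filter_upwards [hev] with t ht
    exact div_le_div_of_nonneg_right (h t ht.1 ht.2).2 (pow_nonneg ht.1.le b)
  rw [ha b hcon, zero_div] at h2
  have h3 : iteratedDeriv b g 0 / (b.factorial : ℝ) = 0 := le_antisymm h2 h1
  have : (b.factorial : ℝ) ≠ 0 := by positivity
  rcases div_eq_zero_iff.mp h3 with h4 | h4
  · exact hb' h4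
  · exact this h4

end Pool.Agent.H823.Hopf
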